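import Pool.Agent.Helper16.BZ.Stmts

/-! Module AEQ: equidistribution of minimal affine maps. -/

open Finset Filter MeasureTheory Topology
open scoped ComplexConjugate InnerProductSpace

namespace Pool.Agent.Helper16.BZ

open Pool.Agent.Helper16.AZ (T E Op mm Eig PP ST_VDH ST_MSR ST_MRF ST_FPV ST_TLR)
open Pool.Agent.Helper16.MD (MS PB Am RW Rich)
open UnitAddTorus (mFourier)

/-- the value of a character at a sum -/
theorem aeq_add {r : ℕ} (X : Fin r → ℤ) (x y : T r) :
    mFourier X (x + y) = mFourier X x * mFourier X y := by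
  show ∏ i, fourier (X i) (x i + y i) = (∏ i, fourier (X i) (x i)) * ∏ i, fourier (X i) (y i)
  rw [← Finset.prod_mul_distrib]
  refine Finset.prod_congr rfl fun i _ => ?_
  simp only [fourier_apply, smul_add, AddCircle.toCircle_add, Circle.coe_mul]

/-- the characters have norm 1 -/
theorem aeq_norm {r : ℕ} (X : Fin r → ℤ) (y : T r) : ‖mFourier X y‖ = 1 := by
  show ‖∏ i, fourier (X i) (y i)‖ = 1
  rw [norm_prod]
  refine Finset.prod_eq_one fun i _ => ?_
  rw [fourier_apply]
  exact Circle.norm_coe _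

theorem aeq_zero {r : ℕ} (θ : T r) : mFourier (0 : Fin r → ℤ) θ = 1 := by
  show ∏ i, fourier ((0 : Fin r → ℤ) i) (θ i) = 1
  refine Finset.prod_eq_one fun i _ => ?_
  simp

/-- a nontrivial character is not constant -/
theorem aeq_ne {r : ℕ} (X : Fin r → ℤ) (hX : X ≠ 0) : ∃ y : T r, mFourier X y ≠ 1 := by
  obtain ⟨i, hi⟩ := Function.ne_iff.1 hX
  have hi0 : X i ≠ 0 := hi
  refine ⟨fun j => if j = i then (((1 / (2 * (X i : ℝ)) : ℝ)) : UnitAddCircle) else 0, ?_⟩
  have h1 : mFourier X (fun j => if j = i then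
      (((1 / (2 * (X i : ℝ)) : ℝ)) : UnitAddCircle) else 0) = -1 := by
    show ∏ j, fourier (X j) (if j = i then (((1 / (2 * (X i : ℝ)) : ℝ)) : UnitAddCircle)
      else 0) = -1
    rw [Finset.prod_eq_single i]
    · rw [if_pos rfl, fourier_coe_apply]
      have hr : ((X i : ℝ) : ℂ) ≠ 0 := by
        exact_mod_cast hi0
      have e : 2 * (Real.pi : ℂ) * Complex.I * (X i : ℂ) * ((1 / (2 * (X i : ℝ)) : ℝ) : ℂ) /
          ((1 : ℝ) : ℂ) = Real.pi * Complex.I := by
        push_cast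
        have hr' : (X i : ℂ) ≠ 0 := by exact_mod_cast hi0
        field_simp
      rw [e, Complex.exp_pi_mul_I]
    · intro j _ hj
      rw [if_neg hj]
      simp
    · intro h
      exact absurd (Finset.mem_univ i) h
  rw [h1]
  norm_num

/-- the integral of a nontrivial character -/
theorem aeq_int {r : ℕ} (X : Fin r → ℤ) (hX : X ≠ 0) : ∫ θ, mFourier X θ ∂(mm r) = 0 := by
  obtain ⟨y, hy⟩ := aeq_ne X hX
  have h1 : ∫ θ, mFourier X (θ + y) ∂(mm r) = ∫ θ, mFourier X θ ∂(mm r) :=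
    integral_add_right_eq_self (μ := mm r) (fun θ => mFourier X θ) y
  have h2 : ∫ θ, mFourier X (θ + y) ∂(mm r) = (∫ θ, mFourier X θ ∂(mm r)) * mFourier X y := by
    rw [← integral_mul_const]
    refine integral_congr_ae (Eventually.of_forall fun θ => ?_)
    exact aeq_add X θ y
  rw [h1] at h2
  have h3 : (∫ θ, mFourier X θ ∂(mm r)) * (mFourier X y - 1) = 0 := by
    rw [mul_sub, ← h2, mul_one, sub_self]
  rcases mul_eq_zero.1 h3 with h | h
  · exact h
  · exact absurd (sub_eq_zero.1 h) hy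

/-- the two kinds of averages -/
theorem aeq_range (f : ℕ → ℂ) (N : ℕ) :
    ∑ n ∈ range N, f n = ∑ n ∈ Icc 1 N, f n + (f 0 - f N) := by
  induction N with
  | zero => simp
  | succ N ih =>
    rw [Finset.sum_range_succ, ih, Finset.sum_Icc_succ_top (by omega)]
    ring

theorem aeq_char (h : ST_PO) {r : ℕ} (A : Matrix (Fin r) (Fin r) ℤ) (β : T r) (S : T r → T r)
    (hA : Aff A β S) (hmin : Min A β) (p : ℕ) (hp : 1 ≤ p) (X : Fin r → ℤ) (hX : X ≠ 0)
    (x : T r) : Tendsto (fun N : ℕ => (∑ n ∈ range N, mFourier X (S^[p * n] x)) / (N : ℂ))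
      atTop (𝓝 0) := by
  classical
  have hex : ∃ k : ℕ, Matrix.vecMul X ((A - 1) ^ (k + 1)) = 0 := by
    refine ⟨r, ?_⟩
    rw [pow_succ, hmin.1, zero_mul, Matrix.vecMul_zero]
  obtain ⟨k, hk1, hk2⟩ : ∃ k : ℕ, Matrix.vecMul X ((A - 1) ^ (k + 1)) = 0 ∧
      Matrix.vecMul X ((A - 1) ^ k) ≠ 0 := by
    refine ⟨Nat.find hex, Nat.find_spec hex, ?_⟩
    rcases Nat.eq_zero_or_pos (Nat.find hex) with h0 | h0
    · rw [h0, pow_zero, Matrix.vecMul_one]; exact hX
    · intro hc
      have h1 := Nat.find_min hex (m := Nat.find hex - 1) (by omega)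
      apply h1
      rw [Nat.sub_add_cancel h0]; exact hc
  have h1 := h r A β S hA hmin k p p X 0 x hp hp hk1 (by rw [Matrix.zero_vecMul]) (by
    rw [Matrix.zero_vecMul, smul_zero]
    intro hc
    rcases smul_eq_zero.1 hc with h2 | h2
    · have : (p : ℤ) ≠ 0 := by
        have : p ≠ 0 := by omega
        exact_mod_cast this
      exact pow_ne_zero _ this h2
    · exact hk2 h2)
  simp only [aeq_zero, map_one, mul_one] at h1
  have h2 : Tendsto (fun N : ℕ => (mFourier X (S^[p * 0] x) - mFourier X (S^[p * N] x)) /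
      (N : ℂ)) atTop (𝓝 0) := by
    rw [tendsto_zero_iff_norm_tendsto_zero]
    have h3 : Tendsto (fun N : ℕ => (2 : ℝ) / (N : ℝ)) atTop (𝓝 0) :=
      tendsto_const_div_atTop_nhds_zero_nat 2
    refine squeeze_zero (fun N => norm_nonneg _) (fun N => ?_) h3
    rw [norm_div, Complex.norm_natCast]
    apply div_le_div_of_nonneg_right _ (Nat.cast_nonneg N)
    refine (norm_sub_le _ _).trans ?_
    rw [aeq_norm, aeq_norm]
    norm_num
  have h3 := h1.add h2
  rw [add_zero] at h3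
  refine h3.congr fun N => ?_
  rw [← add_div, ← aeq_range (fun n => mFourier X (S^[p * n] x))]

theorem st_AEQ (h : ST_PO) : ST_AEQ := by
  intro r A β S hA hmin p hp F hF x₀
  have hint : ∀ G : C(T r, ℂ), Integrable (fun θ => G θ) (mm r) := fun G =>
    G.continuous.integrable_of_hasCompactSupport (HasCompactSupport.of_compactSpace _)
  let W : Submodule ℂ C(T r, ℂ) :=
    { carrier := {G | ∀ x : T r, Tendsto (fun N : ℕ => (∑ n ∈ range N, G (S^[p * n] x)) /
        (N : ℂ)) atTop (𝓝 (∫ θ, G θ ∂(mm r)))}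
      add_mem' := by
        intro G₁ G₂ h1 h2 x
        have h3 := (h1 x).add (h2 x)
        have e : ∫ θ, (G₁ + G₂) θ ∂(mm r) = ∫ θ, G₁ θ ∂(mm r) + ∫ θ, G₂ θ ∂(mm r) :=
          integral_add (hint G₁) (hint G₂)
        rw [e]
        refine h3.congr fun N => ?_
        simp only [ContinuousMap.add_apply, Finset.sum_add_distrib, add_div]
      zero_mem' := by
        intro x
        simp
      smul_mem' := by
        intro c G h1 x
        have h3 := (h1 x).const_mul c
        have e : ∫ θ, (c • G) θ ∂(mm r) = c * ∫ θ, G θ ∂(mm r) := by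
          rw [← integral_const_mul]
          rfl
        rw [e]
        refine h3.congr fun N => ?_
        simp only [ContinuousMap.smul_apply, smul_eq_mul, ← Finset.mul_sum, mul_div_assoc] }
  have hW1 : Submodule.span ℂ (Set.range (mFourier (d := Fin r))) ≤ W := by
    rw [Submodule.span_le]
    rintro _ ⟨X, rfl⟩ x
    by_cases hX : X = 0
    · subst hX
      simp only [aeq_zero]
      rw [integral_const, probReal_univ, one_smul]
      refine tendsto_const_nhds.congr' ?_
      filter_upwards [eventually_gt_atTop 0] with N hN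
      have : (N : ℂ) ≠ 0 := by exact_mod_cast hN.ne'
      simp [this]
    · rw [aeq_int X hX]
      exact aeq_char h A β S hA hmin p hp X hX x
  have hW2 : (⟨F, hF⟩ : C(T r, ℂ)) ∈ W.topologicalClosure := by
    have h1 : (Submodule.span ℂ (Set.range (mFourier (d := Fin r)))).topologicalClosure ≤
        W.topologicalClosure := Submodule.topologicalClosure_mono hW1
    rw [UnitAddTorus.span_mFourier_closure_eq_top] at h1
    exact h1 trivial
  have hW3 : (⟨F, hF⟩ : C(T r, ℂ)) ∈ closure (W : Set C(T r, ℂ)) := hW2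
  rw [Metric.mem_closure_iff] at hW3
  rw [Metric.tendsto_atTop]
  intro ε hε
  obtain ⟨G, hG, hd⟩ := hW3 (ε / 4) (by positivity)
  have hG2 := hG x₀
  rw [Metric.tendsto_atTop] at hG2
  obtain ⟨N₀, hN₀⟩ := hG2 (ε / 4) (by positivity)
  refine ⟨N₀, fun N hN => ?_⟩
  have hp : ∀ θ : T r, ‖F θ - G θ‖ ≤ ε / 4 := by
    intro θ
    have h1 := ContinuousMap.dist_apply_le_dist (f := (⟨F, hF⟩ : C(T r, ℂ))) (g := G) θ
    have h2 : dist (F θ) (G θ) ≤ ε / 4 := h1.trans hd.le
    rwa [dist_eq_norm] at h2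
  have h1 : ‖(∑ n ∈ range N, F (S^[p * n] x₀)) / (N : ℂ) -
      (∑ n ∈ range N, G (S^[p * n] x₀)) / (N : ℂ)‖ ≤ ε / 4 := by
    rw [← sub_div, ← Finset.sum_sub_distrib, norm_div, Complex.norm_natCast]
    rcases Nat.eq_zero_or_pos N with h0 | h0
    · subst h0
      simp
      positivity
    · have h0' : (0 : ℝ) < N := by exact_mod_cast h0
      rw [div_le_iff₀ h0']
      refine (norm_sum_le _ _).trans ?_
      refine (Finset.sum_le_sum fun n _ => hp _).trans ?_
      rw [Finset.sum_const, card_range, nsmul_eq_mul, mul_comm]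
  have h2 : ‖∫ θ, F θ ∂(mm r) - ∫ θ, G θ ∂(mm r)‖ ≤ ε / 4 := by
    have e : ∫ θ, F θ ∂(mm r) - ∫ θ, G θ ∂(mm r) = ∫ θ, (F θ - G θ) ∂(mm r) :=
      (integral_sub (hint ⟨F, hF⟩) (hint G)).symm
    rw [e]
    refine (norm_integral_le_of_norm_le_const (Eventually.of_forall hp)).trans ?_
    rw [probReal_univ, mul_one]
  have h3 := hN₀ N hN
  rw [dist_eq_norm] at h3 ⊢
  have e : (∑ n ∈ range N, F (S^[p * n] x₀)) / (N : ℂ) - ∫ θ, F θ ∂(mm r) =
      ((∑ n ∈ range N, F (S^[p * n] x₀)) / (N : ℂ) -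
        (∑ n ∈ range N, G (S^[p * n] x₀)) / (N : ℂ)) +
      ((∑ n ∈ range N, G (S^[p * n] x₀)) / (N : ℂ) - ∫ θ, G θ ∂(mm r)) -
      (∫ θ, F θ ∂(mm r) - ∫ θ, G θ ∂(mm r)) := by ring
  rw [e]
  refine (norm_sub_le _ _).trans_lt ?_
  have h4 := norm_add_le ((∑ n ∈ range N, F (S^[p * n] x₀)) / (N : ℂ) -
    (∑ n ∈ range N, G (S^[p * n] x₀)) / (N : ℂ))
    ((∑ n ∈ range N, G (S^[p * n] x₀)) / (N : ℂ) - ∫ θ, G θ ∂(mm r))
  linarith

end Pool.Agent.Helper16.BZ
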